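import Pool.Agent.H67.AT.Targets
import Pool.Agent.H67.AT.Ser

/-!
# Row LIN: the elementary symmetric sums as coefficients
-/

set_option autoImplicit false

open Finset PowerSeries Pool.Agent.H67.AT

namespace Pool.Agent.H1.AT

theorem pf_LIN : T_LIN := by
  intro ι _ O c m
  rw [snd_mul', fst_eps, snd_eps, zero_mul, zero_add, one_mul, fst_prod]
  simp only [fst_lin]
  rw [Finset.prod_one_add, map_sum]
  have h : ∀ T ∈ O.powerset, coeff m (∏ i ∈ T, (C (c i) * X : PowerSeries ℝ)) =
      if T.card = m then ∏ i ∈ T, c i else 0 := by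
    intro T _
    rw [Finset.prod_mul_distrib, Finset.prod_const, ← map_prod, coeff_C_mul, coeff_X_pow]
    by_cases hm : T.card = m
    · rw [if_pos hm.symm, if_pos hm, mul_one]
    · rw [if_neg (fun h => hm h.symm), if_neg hm, mul_zero]
  rw [Finset.sum_congr rfl h, ← Finset.sum_filter, Finset.powersetCard_eq_filter]

end Pool.Agent.H1.AT
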